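import Pool.Agent.Helper15_SIU.Stmts

/-!
# MP_021b97_an: cut-off functions
-/

set_option autoImplicit false

open MeasureTheory Filter Topology
open scoped ENNReal

namespace Pool.Agent.SIU.H75

/-- smooth, `0` on `(-∞, 1]`, `1` on `[2, ∞)` -/
noncomputable def zt (x : ℝ) : ℝ := Real.smoothTransition (x - 1)

theorem zt_smooth : ContDiff ℝ ((⊤ : ℕ∞) : WithTop ℕ∞) zt := by
  unfold zt
  exact Real.smoothTransition.contDiff.comp (contDiff_id.sub contDiff_const)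

theorem zt_zero {x : ℝ} (h : x ≤ 1) : zt x = 0 :=
  Real.smoothTransition.zero_of_nonpos (by linarith)

theorem zt_one {x : ℝ} (h : 2 ≤ x) : zt x = 1 :=
  Real.smoothTransition.one_of_one_le (by linarith)

theorem zt_nonneg (x : ℝ) : 0 ≤ zt x := Real.smoothTransition.nonneg _

theorem zt_le_one (x : ℝ) : zt x ≤ 1 := Real.smoothTransition.le_one _

theorem zt_abs (x : ℝ) : |zt x| ≤ 1 := abs_le.mpr ⟨by linarith [zt_nonneg x], zt_le_one x⟩

theorem zt_diff (x : ℝ) : DifferentiableAt ℝ zt x :=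
  (zt_smooth.differentiable (by simp)) x

theorem deriv_zt_left {x : ℝ} (h : x < 1) : deriv zt x = 0 := by
  have : zt =ᶠ[𝓝 x] fun _ => 0 := by
    filter_upwards [Iio_mem_nhds h] with y hy
    exact zt_zero (le_of_lt hy)
  rw [this.deriv_eq]
  simp

theorem deriv_zt_right {x : ℝ} (h : 2 < x) : deriv zt x = 0 := by
  have : zt =ᶠ[𝓝 x] fun _ => 1 := by
    filter_upwards [Ioi_mem_nhds h] with y hy
    exact zt_one (le_of_lt hy)
  rw [this.deriv_eq]
  simp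

theorem zt_bound : ∃ M : ℝ, 0 ≤ M ∧ ∀ x, |deriv zt x| * |x| ≤ M := by
  have hc : Continuous (deriv zt) := zt_smooth.continuous_deriv (by simp)
  obtain ⟨C, hC⟩ := (isCompact_Icc (a := (1 : ℝ)) (b := 2)).exists_bound_of_continuousOn
    hc.continuousOn
  have hC0 : 0 ≤ C := (norm_nonneg _).trans (hC 1 (by norm_num))
  refine ⟨C * 2, by positivity, fun x => ?_⟩
  by_cases h1 : x < 1
  · rw [deriv_zt_left h1]; simp; positivity
  · by_cases h2 : 2 < x
    · rw [deriv_zt_right h2]; simp; positivity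
    · push Not at h1 h2
      have h3 := hC x ⟨h1, h2⟩
      have h4 : |x| ≤ 2 := abs_le.mpr ⟨by linarith, h2⟩
      rw [Real.norm_eq_abs] at h3
      exact mul_le_mul h3 h4 (abs_nonneg _) hC0

theorem fderiv_zt {f : E7 → ℝ} {z : E7} (l : ℝ) (hf : DifferentiableAt ℝ f z) :
    HasFDerivAt (fun w => zt (l * f w)) ((deriv zt (l * f z) * l) • fderiv ℝ f z) z := by
  have h1 : HasFDerivAt (fun w => l * f w) (l • fderiv ℝ f z) z := hf.hasFDerivAt.const_mul l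
  have h2 := (zt_diff (l * f z)).hasDerivAt.comp_hasFDerivAt z h1
  rw [smul_smul] at h2
  exact h2

/-- eventually `zt (l f) = 1` near a point where `f > 0` -/
theorem ev_one {f : E7 → ℝ} {z : E7} (hf : ContinuousAt f z) (hp : 0 < f z) :
    ∀ᶠ m : ℕ in atTop, ∀ᶠ w in 𝓝 z, zt (((m : ℝ) + 1) * f w) = 1 := by
  obtain ⟨n, hn⟩ := exists_nat_gt (2 / (f z / 2))
  filter_upwards [eventually_ge_atTop n] with m hm
  have h1 : ∀ᶠ w in 𝓝 z, f z / 2 < f w := hf.eventually_const_lt (by linarith)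
  filter_upwards [h1] with w hw
  apply zt_one
  have h2 : (n : ℝ) ≤ m := by exact_mod_cast hm
  have h3 : 2 / (f z / 2) * (f z / 2) = 2 := div_mul_cancel₀ _ (by positivity)
  have h4 : 0 < f z / 2 := by positivity
  nlinarith

/-- the main estimate -/
theorem cut_bound (g h : E7 → ℝ) (hg : ContDiffOn ℝ 1 g X2.U) (hh : ContDiffOn ℝ 1 h X2.U)
    (hpos : ∀ z ∈ Shell, 0 < h z) (h0 : ∀ z, 0 ≤ g z)
    (h1 : ∀ z ∈ Shell, ‖fderiv ℝ g z‖ ≤ 4 * √(g z)) (h4 : ∀ z ∈ Shell, g z ≤ 4) :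
    ∃ C : ℝ, 0 ≤ C ∧ ∀ l : ℝ, 0 < l → ∀ z ∈ Shell, 0 < g z →
      ‖fderiv ℝ (fun w => zt (l * (g w * h w))) z‖ ≤ C * (√(g z))⁻¹ := by
  obtain ⟨M, hM0, hM⟩ := zt_bound
  have hhc : ContinuousOn h Shell := hh.continuousOn.mono Shell_subset
  have hhi : ContinuousOn (fun z => (h z)⁻¹) Shell := hhc.inv₀ fun z hz => (hpos z hz).ne'
  have hhd : ContinuousOn (fderiv ℝ h) Shell :=
    (hh.continuousOn_fderiv_of_isOpen isOpen_U le_rfl).mono Shell_subset
  obtain ⟨C0, hC0⟩ := isCompact_Shell.exists_bound_of_continuousOn hhi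
  obtain ⟨C1, hC1⟩ := isCompact_Shell.exists_bound_of_continuousOn hhc
  obtain ⟨C2, hC2⟩ := isCompact_Shell.exists_bound_of_continuousOn hhd
  refine ⟨M * |C0| * (4 * |C1| + 2 * |C2|), by positivity, fun l hl z hz hgz => ?_⟩
  have hU := Shell_subset hz
  have hgd : DifferentiableAt ℝ g z :=
    (hg.contDiffAt (isOpen_U.mem_nhds hU)).differentiableAt (by simp)
  have hhd' : DifferentiableAt ℝ h z :=
    (hh.contDiffAt (isOpen_U.mem_nhds hU)).differentiableAt (by simp)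
  have hf : HasFDerivAt (fun w => g w * h w) (g z • fderiv ℝ h z + h z • fderiv ℝ g z) z :=
    hgd.hasFDerivAt.mul hhd'.hasFDerivAt
  rw [(fderiv_zt l hf.differentiableAt).fderiv, hf.fderiv, norm_smul]
  set s := √(g z) with hs
  have hsp : 0 < s := Real.sqrt_pos.mpr hgz
  have hsq : s * s = g z := Real.mul_self_sqrt hgz.le
  have hs2 : s ≤ 2 := by
    have := h4 z hz
    nlinarith
  have e1 : ‖g z • fderiv ℝ h z + h z • fderiv ℝ g z‖ ≤ (4 * |C1| + 2 * |C2|) * s := by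
    have a1 := norm_add_le (g z • fderiv ℝ h z) (h z • fderiv ℝ g z)
    rw [norm_smul, norm_smul] at a1
    have a2 : ‖fderiv ℝ h z‖ ≤ |C2| := (hC2 z hz).trans (le_abs_self _)
    have a3 : ‖h z‖ ≤ |C1| := (hC1 z hz).trans (le_abs_self _)
    have a4 := h1 z hz
    have a5 : ‖g z‖ ≤ 2 * s := by
      rw [Real.norm_eq_abs, abs_of_pos hgz, ← hsq]
      nlinarith
    have a6 : ‖g z‖ * ‖fderiv ℝ h z‖ ≤ (2 * s) * |C2| :=
      mul_le_mul a5 a2 (norm_nonneg _) (by positivity)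
    have a7 : ‖h z‖ * ‖fderiv ℝ g z‖ ≤ |C1| * (4 * s) :=
      mul_le_mul a3 a4 (norm_nonneg _) (by positivity)
    linarith
  have e2 : ‖deriv zt (l * (g z * h z)) * l‖ ≤ M * |C0| * (g z)⁻¹ := by
    have hhp := hpos z hz
    have b1 := hM (l * (g z * h z))
    have b2 : |l * (g z * h z)| = l * (g z * h z) := abs_of_pos (by positivity)
    rw [b2] at b1
    rw [Real.norm_eq_abs, abs_mul, abs_of_pos hl]
    have b3 : (h z)⁻¹ ≤ |C0| := by
      have := hC0 z hz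
      rw [Real.norm_eq_abs, abs_of_pos (inv_pos.mpr hhp)] at this
      exact this.trans (le_abs_self _)
    have b4 : |deriv zt (l * (g z * h z))| * l =
        |deriv zt (l * (g z * h z))| * (l * (g z * h z)) * ((h z)⁻¹ * (g z)⁻¹) := by
      field_simp
    rw [b4]
    calc |deriv zt (l * (g z * h z))| * (l * (g z * h z)) * ((h z)⁻¹ * (g z)⁻¹)
        ≤ M * (|C0| * (g z)⁻¹) := by
          apply mul_le_mul b1 _ (by positivity) hM0
          exact mul_le_mul_of_nonneg_right b3 (by positivity)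
      _ = _ := by ring
  calc ‖deriv zt (l * (g z * h z)) * l‖ * ‖g z • fderiv ℝ h z + h z • fderiv ℝ g z‖
      ≤ (M * |C0| * (g z)⁻¹) * ((4 * |C1| + 2 * |C2|) * s) :=
        mul_le_mul e2 e1 (norm_nonneg _) (by positivity)
    _ = M * |C0| * (4 * |C1| + 2 * |C2|) * s⁻¹ := by
        rw [← hsq]
        field_simp

/-! ## smoothness of the basic functions -/

theorem nsq_smooth (j : Fin 7) : ContDiff ℝ ((⊤ : ℕ∞) : WithTop ℕ∞) (fun z : E7 => ‖z j‖ ^ 2) :=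
  ((contDiff_apply ℝ ℂ j)).norm_sq ℝ

theorem AA_smooth : ContDiff ℝ ((⊤ : ℕ∞) : WithTop ℕ∞) AA := by
  unfold AA; exact (nsq_smooth 0).add (nsq_smooth 1)

theorem BB_smooth : ContDiff ℝ ((⊤ : ℕ∞) : WithTop ℕ∞) BB := by
  unfold BB; exact (nsq_smooth 2).add (nsq_smooth 3)

theorem DD_smooth : ContDiff ℝ ((⊤ : ℕ∞) : WithTop ℕ∞) DD := by
  unfold DD; exact (((nsq_smooth 0).add (nsq_smooth 1)).mul
    ((nsq_smooth 2).add (nsq_smooth 3))).add (nsq_smooth 4)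

theorem YY_smooth : ContDiff ℝ ((⊤ : ℕ∞) : WithTop ℕ∞) YY := by
  unfold YY; exact (nsq_smooth 5).add (nsq_smooth 6)

theorem nsq_fderiv (j : Fin 7) (z : E7) : ‖fderiv ℝ (fun z : E7 => ‖z j‖ ^ 2) z‖ ≤ 2 * ‖z j‖ := by
  have h := (hasFDerivAt_apply (𝕜 := ℝ) j z).norm_sq
  have h' : fderiv ℝ (fun z : E7 => ‖z j‖ ^ 2) z = _ := h.fderiv
  rw [h']
  refine ContinuousLinearMap.opNorm_le_bound _ (by positivity) fun v => ?_
  have h1 : |inner ℝ (z j) (v j)| ≤ ‖z j‖ * ‖v j‖ := abs_real_inner_le_norm _ _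
  have h2 : ‖v j‖ ≤ ‖v‖ := norm_le_pi_norm v j
  have h3 : ‖z j‖ * ‖v j‖ ≤ ‖z j‖ * ‖v‖ := mul_le_mul_of_nonneg_left h2 (norm_nonneg _)
  have h4 : (2 • (innerSL ℝ (z j)).comp (ContinuousLinearMap.proj (R := ℝ) (φ := fun _ : Fin 7 => ℂ) j)) v
      = 2 * inner ℝ (z j) (v j) := by
    simp [two_smul, two_mul]
  rw [h4, norm_mul, Real.norm_eq_abs, Real.norm_eq_abs, abs_two]
  linarith

theorem BB_fderiv (z : E7) : ‖fderiv ℝ BB z‖ ≤ 4 * √(BB z) := by
  have h : fderiv ℝ BB z = fderiv ℝ (fun z : E7 => ‖z 2‖ ^ 2) z +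
      fderiv ℝ (fun z : E7 => ‖z 3‖ ^ 2) z := by
    have h1 := (((nsq_smooth 2).differentiable (by simp)) z).hasFDerivAt.add
      (((nsq_smooth 3).differentiable (by simp)) z).hasFDerivAt
    exact h1.fderiv
  rw [h]
  have h1 := norm_add_le (fderiv ℝ (fun z : E7 => ‖z 2‖ ^ 2) z) (fderiv ℝ (fun z : E7 => ‖z 3‖ ^ 2) z)
  have h2 := nsq_fderiv 2 z
  have h3 := nsq_fderiv 3 z
  have h4 : ‖z 2‖ ≤ √(BB z) := by
    apply Real.le_sqrt_of_sq_le
    unfold BB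
    nlinarith [sq_nonneg ‖z 3‖]
  have h5 : ‖z 3‖ ≤ √(BB z) := by
    apply Real.le_sqrt_of_sq_le
    unfold BB
    nlinarith [sq_nonneg ‖z 2‖]
  linarith

theorem shell_norm {z : E7} (hz : z ∈ Shell) (j : Fin 7) : ‖z j‖ ^ 2 ≤ 4 := by
  obtain ⟨h1, h2, h3, h4, h5, h6⟩ := hz
  have hB : BB z ≤ 4 := by
    rw [DD_eq] at h4
    have := BB_nonneg z
    nlinarith [sq_nonneg ‖z 4‖]
  have hv : ‖z 4‖ ^ 2 ≤ 4 := by
    rw [DD_eq] at h4
    have := mul_nonneg (AA_nonneg z) (BB_nonneg z)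
    linarith
  unfold AA at h2
  unfold BB at hB
  unfold YY at h6
  fin_cases j
  · show ‖z 0‖ ^ 2 ≤ 4
    nlinarith [sq_nonneg ‖z 1‖]
  · show ‖z 1‖ ^ 2 ≤ 4
    nlinarith [sq_nonneg ‖z 0‖]
  · show ‖z 2‖ ^ 2 ≤ 4
    nlinarith [sq_nonneg ‖z 3‖]
  · show ‖z 3‖ ^ 2 ≤ 4
    nlinarith [sq_nonneg ‖z 2‖]
  · exact hv
  · show ‖z 5‖ ^ 2 ≤ 4
    nlinarith [sq_nonneg ‖z 6‖]
  · show ‖z 6‖ ^ 2 ≤ 4
    nlinarith [sq_nonneg ‖z 5‖]

theorem shell_BB {z : E7} (hz : z ∈ Shell) : BB z ≤ 4 := by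
  obtain ⟨h1, h2, h3, h4, h5, h6⟩ := hz
  rw [DD_eq] at h4
  have := BB_nonneg z
  nlinarith [sq_nonneg ‖z 4‖]

theorem rho_eq (z : E7) : rho z = BB z * (AA z / DD z) := by unfold rho; ring

theorem h_smooth : ContDiffOn ℝ ((⊤ : ℕ∞) : WithTop ℕ∞) (fun z => AA z / DD z) X2.U :=
  AA_smooth.contDiffOn.div DD_smooth.contDiffOn fun z hz => (DD_pos hz).ne'

theorem rho_smooth : ContDiffOn ℝ ((⊤ : ℕ∞) : WithTop ℕ∞) rho X2.U := by
  have h : rho = fun z => BB z * (AA z / DD z) := funext rho_eq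
  rw [h]
  exact BB_smooth.contDiffOn.mul h_smooth

/-- cut-off of an invariant function is invariant -/
theorem zt_inv {f : E7 → ℝ} (hf : InvFn f) (l : ℝ) : InvFn (fun z => zt (l * f z)) :=
  ⟨zt_smooth.comp_contDiffOn (contDiffOn_const.mul hf.1), fun z hz c hc => by
    show zt (l * f _) = zt (l * f z)
    rw [hf.2 z hz c hc]⟩

theorem ctf : CtfStmt := by
  obtain ⟨C, hC0, hC⟩ := cut_bound BB (fun z => AA z / DD z)
    (BB_smooth.contDiffOn.of_le (by exact_mod_cast le_top))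
    (h_smooth.of_le (by exact_mod_cast le_top))
    (fun z hz => div_pos (AA_pos (Shell_subset hz)) (DD_pos (Shell_subset hz)))
    BB_nonneg (fun z _ => BB_fderiv z) (fun z hz => shell_BB hz)
  have hr : InvFn rho := ⟨rho_smooth, fun z _ c hc => rho_act hc z⟩
  refine ⟨fun i z => zt (((i : ℝ) + 1) * rho z), C, fun i => ⟨zt_inv hr _, ?_, ?_, ?_, ?_⟩⟩
  · refine ⟨1 / ((i : ℝ) + 1), by positivity, fun z _ hz => ?_⟩
    apply zt_zero
    have h1 : 0 < (i : ℝ) + 1 := by positivity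
    rw [lt_div_iff₀ h1] at hz
    linarith
  · intro z _
    exact zt_abs _
  · intro z hz
    have h1 := hC ((i : ℝ) + 1) (by positivity) z hz.1 (BB_pos hz.2)
    have h2 : (fun w => zt (((i : ℝ) + 1) * (BB w * (AA w / DD w)))) =
        fun w => zt (((i : ℝ) + 1) * rho w) := by
      funext w
      rw [rho_eq]
    rw [h2] at h1
    exact h1
  · intro z hz
    have hc : ContinuousAt rho z :=
      (rho_smooth.continuousOn.continuousAt (isOpen_U.mem_nhds hz.1))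
    have hp : 0 < rho z := by
      unfold rho
      exact div_pos (mul_pos (AA_pos hz.1) (BB_pos hz)) (DD_pos hz.1)
    filter_upwards [ev_one hc hp] with m hm
    refine ⟨hm.self_of_nhds, ?_⟩
    have h3 : (fun z => zt (((m : ℝ) + 1) * rho z)) =ᶠ[𝓝 z] fun _ => 1 := hm
    rw [h3.fderiv_eq]
    simp

end Pool.Agent.SIU.H75
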