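import Pool.Agent.Helper75_SIU.CTF

/-!
# MP_021b97_an: Stokes' theorem on `X`
-/

set_option autoImplicit false

open MeasureTheory Filter Topology
open scoped ENNReal

namespace Pool.Agent.SIU.H75

/-! ## exterior derivative of `C¹` forms -/

theorem extDeriv_cont {N k : ℕ} {ω : (Fin N → ℂ) → Alt N k} {V : Set (Fin N → ℂ)} (hV : IsOpen V)
    (h : ContDiffOn ℝ 1 ω V) : ContinuousOn (extDeriv ω) V := by
  have h1 : ContinuousOn (fderiv ℝ ω) V := h.continuousOn_fderiv_of_isOpen hV le_rfl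
  have h2 : extDeriv ω = fun x =>
      ContinuousAlternatingMap.alternatizeUncurryFinCLM ℝ (Fin N → ℂ) ℝ (fderiv ℝ ω x) := by
    funext x
    rfl
  rw [h2]
  exact (ContinuousLinearMap.continuous _).comp_continuousOn h1

/-! ## the functions `‖z j‖² / P` -/

theorem fr_smooth (j : Fin 7) {P : E7 → ℝ} (hP : ContDiff ℝ ((⊤ : ℕ∞) : WithTop ℕ∞) P)
    (h0 : ∀ z ∈ X2.U, 0 < P z) :
    ContDiffOn ℝ ((⊤ : ℕ∞) : WithTop ℕ∞) (fun z : E7 => ‖z j‖ ^ 2 * (P z)⁻¹) X2.U :=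
  (nsq_smooth j).contDiffOn.mul (hP.contDiffOn.inv fun z hz => (h0 z hz).ne')

theorem fr_bound (j : Fin 7) {P : E7 → ℝ} (hP : ContDiff ℝ ((⊤ : ℕ∞) : WithTop ℕ∞) P)
    (h0 : ∀ z ∈ X2.U, 0 < P z) :
    ∃ C : ℝ, 0 ≤ C ∧ ∀ l : ℝ, 0 < l → ∀ z ∈ Shell, z j ≠ 0 →
      ‖fderiv ℝ (fun w : E7 => zt (l * (‖w j‖ ^ 2 * (P w)⁻¹))) z‖ ≤ C * ‖z j‖⁻¹ := by
  obtain ⟨C, hC0, hC⟩ := cut_bound (fun w : E7 => ‖w j‖ ^ 2) (fun z => (P z)⁻¹)
    ((nsq_smooth j).contDiffOn.of_le (by exact_mod_cast le_top))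
    ((hP.contDiffOn.inv fun z hz => (h0 z hz).ne').of_le (by exact_mod_cast le_top))
    (fun z hz => inv_pos.mpr (h0 z (Shell_subset hz)))
    (fun z => by positivity) (fun z _ => by
      rw [Real.sqrt_sq (norm_nonneg _)]
      have := nsq_fderiv j z
      have := norm_nonneg (z j)
      linarith) (fun z hz => shell_norm hz j)
  refine ⟨C, hC0, fun l hl z hz hj => ?_⟩
  have hp : 0 < ‖z j‖ := norm_pos_iff.mpr hj
  have h1 := hC l hl z hz (by positivity)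
  rw [Real.sqrt_sq (norm_nonneg _)] at h1
  exact h1

noncomputable def fT (z : E7) : ℝ := ‖z 1‖ ^ 2 * (AA z)⁻¹
noncomputable def fV (z : E7) : ℝ := ‖z 4‖ ^ 2 * (DD z)⁻¹
noncomputable def fY (z : E7) : ℝ := ‖z 6‖ ^ 2 * (YY z)⁻¹

theorem fT_inv : InvFn fT := by
  refine ⟨fr_smooth 1 AA_smooth fun z hz => AA_pos hz, fun z hz c hc => ?_⟩
  have h0 : ‖c 0‖ ≠ 0 := norm_ne_zero_iff.mpr (hc 0)
  have hA := (AA_pos hz).ne'
  unfold fT
  rw [AA_act]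
  have : ‖(X2.act c z) 1‖ = ‖c 0‖ * ‖z 1‖ := by rw [act_eq]; simp
  rw [this]
  field_simp

theorem fV_inv : InvFn fV := by
  refine ⟨fr_smooth 4 DD_smooth fun z hz => DD_pos hz, fun z hz c hc => ?_⟩
  have h0 : ‖c 1‖ ≠ 0 := norm_ne_zero_iff.mpr (hc 1)
  have hA := (DD_pos hz).ne'
  unfold fV
  rw [DD_act hc]
  have : ‖(X2.act c z) 4‖ = ‖c 1‖ * ‖z 4‖ := by rw [act_eq]; simp
  rw [this]
  field_simp

theorem fY_inv : InvFn fY := by
  refine ⟨fr_smooth 6 YY_smooth fun z hz => YY_pos hz, fun z hz c hc => ?_⟩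
  have h0 : ‖c 2‖ ≠ 0 := norm_ne_zero_iff.mpr (hc 2)
  have hA := (YY_pos hz).ne'
  unfold fY
  rw [YY_act]
  have : ‖(X2.act c z) 6‖ = ‖c 2‖ * ‖z 6‖ := by rw [act_eq]; simp
  rw [this]
  field_simp

/-- the cut-off function -/
noncomputable def kap (l : ℝ) (z : E7) : ℝ := zt (l * fT z) * (zt (l * fV z) * zt (l * fY z))

theorem kap_inv (l : ℝ) : InvFn (kap l) :=
  (zt_inv fT_inv l).mul ((zt_inv fV_inv l).mul (zt_inv fY_inv l))

theorem kap_abs (l : ℝ) (z : E7) : |kap l z| ≤ 1 := by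
  unfold kap
  rw [abs_mul, abs_mul]
  have h1 := zt_abs (l * fT z)
  have h2 := zt_abs (l * fV z)
  have h3 := zt_abs (l * fY z)
  have h4 : |zt (l * fV z)| * |zt (l * fY z)| ≤ 1 := mul_le_one₀ h2 (abs_nonneg _) h3
  exact mul_le_one₀ h1 (by positivity) h4

theorem kap_bound : ∃ C : ℝ, 0 ≤ C ∧ ∀ l : ℝ, 0 < l → ∀ z ∈ Shell, z 1 ≠ 0 → z 4 ≠ 0 → z 6 ≠ 0 →
    ‖fderiv ℝ (kap l) z‖ ≤ C * (‖z 1‖⁻¹ + ‖z 4‖⁻¹ + ‖z 6‖⁻¹) := by
  obtain ⟨C1, hC1, h1⟩ := fr_bound 1 AA_smooth fun z hz => AA_pos hz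
  obtain ⟨C2, hC2, h2⟩ := fr_bound 4 DD_smooth fun z hz => DD_pos hz
  obtain ⟨C3, hC3, h3⟩ := fr_bound 6 YY_smooth fun z hz => YY_pos hz
  refine ⟨C1 + C2 + C3, by positivity, fun l hl z hz z1 z4 z6 => ?_⟩
  have hU := isOpen_U.mem_nhds (Shell_subset hz)
  have d1 : DifferentiableAt ℝ (fun w => zt (l * fT w)) z :=
    ((zt_inv fT_inv l).1.contDiffAt hU).differentiableAt (by simp)
  have d2 : DifferentiableAt ℝ (fun w => zt (l * fV w)) z :=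
    ((zt_inv fV_inv l).1.contDiffAt hU).differentiableAt (by simp)
  have d3 : DifferentiableAt ℝ (fun w => zt (l * fY w)) z :=
    ((zt_inv fY_inv l).1.contDiffAt hU).differentiableAt (by simp)
  have e : HasFDerivAt (kap l) _ z := d1.hasFDerivAt.mul (d2.hasFDerivAt.mul d3.hasFDerivAt)
  rw [e.fderiv]
  have b1 := h1 l hl z hz z1
  have b2 := h2 l hl z hz z4
  have b3 := h3 l hl z hz z6
  have a1 := zt_abs (l * fT z)
  have a2 := zt_abs (l * fV z)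
  have a3 := zt_abs (l * fY z)
  have c1 : 0 ≤ ‖z 1‖⁻¹ := by positivity
  have c2 : 0 ≤ ‖z 4‖⁻¹ := by positivity
  have c3 : 0 ≤ ‖z 6‖⁻¹ := by positivity
  have b1' : ‖fderiv ℝ (fun w => zt (l * fT w)) z‖ ≤ C1 * ‖z 1‖⁻¹ := b1
  have b2' : ‖fderiv ℝ (fun w => zt (l * fV w)) z‖ ≤ C2 * ‖z 4‖⁻¹ := b2
  have b3' : ‖fderiv ℝ (fun w => zt (l * fY w)) z‖ ≤ C3 * ‖z 6‖⁻¹ := b3
  refine (norm_add_le _ _).trans ?_
  rw [norm_smul, norm_smul]
  have g1 : ‖zt (l * fV z) • fderiv ℝ (fun w => zt (l * fY w)) z +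
      zt (l * fY z) • fderiv ℝ (fun w => zt (l * fV w)) z‖ ≤ C3 * ‖z 6‖⁻¹ + C2 * ‖z 4‖⁻¹ := by
    refine (norm_add_le _ _).trans ?_
    rw [norm_smul, norm_smul, Real.norm_eq_abs, Real.norm_eq_abs]
    have e1 := mul_le_mul a2 b3' (norm_nonneg _) zero_le_one
    have e2 := mul_le_mul a3 b2' (norm_nonneg _) zero_le_one
    linarith
  have g2 : ‖zt (l * fT z)‖ * ‖zt (l * fV z) • fderiv ℝ (fun w => zt (l * fY w)) z +
      zt (l * fY z) • fderiv ℝ (fun w => zt (l * fV w)) z‖ ≤ 1 * (C3 * ‖z 6‖⁻¹ + C2 * ‖z 4‖⁻¹) := by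
    rw [Real.norm_eq_abs]
    exact mul_le_mul a1 g1 (norm_nonneg _) zero_le_one
  have g3 : ‖zt (l * fV z) * zt (l * fY z)‖ ≤ 1 := by
    rw [norm_mul, Real.norm_eq_abs, Real.norm_eq_abs]
    exact mul_le_one₀ a2 (abs_nonneg _) a3
  have g4 : ‖zt (l * fV z) * zt (l * fY z)‖ * ‖fderiv ℝ (fun w => zt (l * fT w)) z‖ ≤
      1 * (C1 * ‖z 1‖⁻¹) := mul_le_mul g3 b1' (norm_nonneg _) zero_le_one
  have m1 := mul_nonneg hC1 c2
  have m2 := mul_nonneg hC1 c3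
  have m3 := mul_nonneg hC2 c1
  have m4 := mul_nonneg hC2 c3
  have m5 := mul_nonneg hC3 c1
  have m6 := mul_nonneg hC3 c2
  nlinarith

theorem kap_ev {z : E7} (hz : z ∈ X2.U) (z1 : z 1 ≠ 0) (z4 : z 4 ≠ 0) (z6 : z 6 ≠ 0) :
    ∀ᶠ m : ℕ in atTop, kap ((m : ℝ) + 1) z = 1 ∧ fderiv ℝ (kap ((m : ℝ) + 1)) z = 0 := by
  have hU := isOpen_U.mem_nhds hz
  have c1 : ContinuousAt fT z := fT_inv.1.continuousOn.continuousAt hU
  have c2 : ContinuousAt fV z := fV_inv.1.continuousOn.continuousAt hU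
  have c3 : ContinuousAt fY z := fY_inv.1.continuousOn.continuousAt hU
  have p1 : 0 < fT z := mul_pos (by have := norm_pos_iff.mpr z1; positivity)
    (inv_pos.mpr (AA_pos hz))
  have p2 : 0 < fV z := mul_pos (by have := norm_pos_iff.mpr z4; positivity)
    (inv_pos.mpr (DD_pos hz))
  have p3 : 0 < fY z := mul_pos (by have := norm_pos_iff.mpr z6; positivity)
    (inv_pos.mpr (YY_pos hz))
  filter_upwards [ev_one c1 p1, ev_one c2 p2, ev_one c3 p3] with m h1 h2 h3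
  have h : kap ((m : ℝ) + 1) =ᶠ[𝓝 z] fun _ => 1 := by
    filter_upwards [h1, h2, h3] with w w1 w2 w3
    unfold kap
    rw [w1, w2, w3]
    norm_num
  refine ⟨h.self_of_nhds, ?_⟩
  rw [h.fderiv_eq]
  simp

/-- the cut-off function vanishes for large `x` -/
theorem kap_sig {l : ℝ} (hl : 1 ≤ l) {x : Fin 4 → ℂ} (hx : l < ‖x‖) : kap l (sig x) = 0 := by
  have hAA : AA (sig x) = ‖x 0‖ ^ 2 + 1 := by simp [AA, sig]
  have hDD : DD (sig x) = (‖x 0‖ ^ 2 + 1) * (‖x 1‖ ^ 2 + ‖x 2‖ ^ 2) + 1 := by simp [DD, sig]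
  have hYY : YY (sig x) = ‖x 3‖ ^ 2 + 1 := by simp [YY, sig]
  have h1 : fT (sig x) = (‖x 0‖ ^ 2 + 1)⁻¹ := by unfold fT; rw [hAA]; simp [sig]
  have h2 : fV (sig x) = ((‖x 0‖ ^ 2 + 1) * (‖x 1‖ ^ 2 + ‖x 2‖ ^ 2) + 1)⁻¹ := by
    unfold fV; rw [hDD]; simp [sig]
  have h3 : fY (sig x) = (‖x 3‖ ^ 2 + 1)⁻¹ := by unfold fY; rw [hYY]; simp [sig]
  have hl0 : 0 < l := by linarith
  obtain ⟨i, hi⟩ : ∃ i, l < ‖x i‖ := by
    by_contra hcon
    push Not at hcon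
    exact absurd hx (not_lt.mpr ((pi_norm_le_iff_of_nonneg hl0.le).mpr hcon))
  have key : ∀ t : ℝ, l ≤ t → l * t⁻¹ ≤ 1 := by
    intro t ht
    rw [← div_eq_mul_inv, div_le_one (by linarith)]
    exact ht
  have hi2 : l ≤ ‖x i‖ ^ 2 := by nlinarith
  unfold kap
  fin_cases i
  · rw [h1, zt_zero (key _ (by
      have : l ≤ ‖x 0‖ ^ 2 := hi2
      linarith))]
    ring
  · rw [h2, zt_zero (x := l * ((‖x 0‖ ^ 2 + 1) * (‖x 1‖ ^ 2 + ‖x 2‖ ^ 2) + 1)⁻¹) (key _ (by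
      have : l ≤ ‖x 1‖ ^ 2 := hi2
      nlinarith [sq_nonneg ‖x 0‖, sq_nonneg ‖x 2‖, sq_nonneg ‖x 1‖,
        mul_nonneg (sq_nonneg ‖x 0‖) (sq_nonneg ‖x 1‖),
        mul_nonneg (sq_nonneg ‖x 0‖) (sq_nonneg ‖x 2‖)]))]
    ring
  · rw [h2, zt_zero (x := l * ((‖x 0‖ ^ 2 + 1) * (‖x 1‖ ^ 2 + ‖x 2‖ ^ 2) + 1)⁻¹) (key _ (by
      have : l ≤ ‖x 2‖ ^ 2 := hi2
      nlinarith [sq_nonneg ‖x 0‖, sq_nonneg ‖x 2‖, sq_nonneg ‖x 1‖,
        mul_nonneg (sq_nonneg ‖x 0‖) (sq_nonneg ‖x 1‖),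
        mul_nonneg (sq_nonneg ‖x 0‖) (sq_nonneg ‖x 2‖)]))]
    ring
  · rw [h3, zt_zero (x := l * (‖x 3‖ ^ 2 + 1)⁻¹) (key _ (by
      have : l ≤ ‖x 3‖ ^ 2 := hi2
      linarith))]
    ring

/-! ## pull-back to the chart -/

theorem sig_smooth : ContDiff ℝ ((⊤ : ℕ∞) : WithTop ℕ∞) sig := by
  have h : sig = fun x => (inc.restrictScalars ℝ) x + ![0, 1, 0, 0, 1, 0, 1] := by
    funext x m
    show _ = (inc x) m + _
    rw [inc_eq]
    fin_cases m <;> simp [sig]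
  rw [h]
  exact (ContinuousLinearMap.contDiff _).add contDiff_const

/-- pull-back to the chart -/
noncomputable def pb {k : ℕ} (η : E7 → Alt 7 k) (x : Fin 4 → ℂ) : Alt 4 k :=
  (η (sig x)).compContinuousLinearMap (inc.restrictScalars ℝ)

theorem pb_smooth {k : ℕ} {η : E7 → Alt 7 k} (h : ContDiffOn ℝ 1 η X2.U) :
    ContDiff ℝ 1 (pb η) := by
  have h1 : ContDiff ℝ 1 (fun x => η (sig x)) := by
    rw [← contDiffOn_univ]
    exact h.comp (sig_smooth.of_le (by exact_mod_cast le_top)).contDiffOn fun x _ => sig_mem_U x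
  have h2 : pb η = fun x => ContinuousAlternatingMap.compContinuousLinearMapCLM
      (inc.restrictScalars ℝ) (η (sig x)) := by
    funext x
    rfl
  rw [h2]
  exact (ContinuousLinearMap.contDiff _).comp h1

theorem pb_extDeriv {k : ℕ} {η : E7 → Alt 7 k} (h : DifferentiableOn ℝ η X2.U) (x : Fin 4 → ℂ) :
    extDeriv (pb η) x = pb (extDeriv η) x := by
  have h1 : pb η = fun x => (η (sig x)).compContinuousLinearMap (fderiv ℝ sig x) := by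
    funext x
    unfold pb
    rw [(hasFDerivAt_sig x).fderiv]
  have h2 := extDeriv_pullback (𝕜 := ℝ) (ω := η) (f := sig) (x := x) (r := 2)
    ((h _ (sig_mem_U x)).differentiableAt (isOpen_U.mem_nhds (sig_mem_U x)))
    ((sig_smooth.of_le (show ((2 : ℕ∞) : WithTop ℕ∞) ≤ ((⊤ : ℕ∞) : WithTop ℕ∞) from
      WithTop.coe_le_coe.mpr le_top)).contDiffAt) (by simp)
  rw [h1, h2, (hasFDerivAt_sig x).fderiv]
  rfl

theorem pb_zero {k : ℕ} {η : E7 → Alt 7 k} {x : Fin 4 → ℂ} (h : η (sig x) = 0) : pb η x = 0 := by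
  unfold pb
  rw [h]
  ext v
  rfl


/-! ## the cut-off form -/

theorem kap_basic {Γ : E7 → Alt 7 7} (hB : X2.BasicOn X2.U Γ) (l : ℝ) :
    X2.BasicOn X2.U (fun z => kap l z • Γ z) := by
  refine ⟨fun z hz c hc v => ?_, fun z hz v i hv => ?_⟩
  · show kap l (X2.act c z) • Γ (X2.act c z) (fun i => X2.act c (v i)) = kap l z • Γ z v
    rw [(kap_inv l).2 z hz c hc, hB.1 z hz c hc v]
  · show kap l z • Γ z v = 0
    rw [hB.2 z hz v i hv, smul_zero]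

theorem kap_C1 {Γ : E7 → Alt 7 7} (hΓ : ContDiffOn ℝ 1 Γ X2.U) (l : ℝ) :
    ContDiffOn ℝ 1 (fun z => kap l z • Γ z) X2.U :=
  ((kap_inv l).1.of_le (by exact_mod_cast le_top)).smul hΓ

theorem chi_pb (η : E7 → Alt 7 8) (x : Fin 4 → ℂ) : chi η x = pb η x (stdb 4 8) := rfl

theorem kap_stokes (h7 : Sk0Stmt) {Γ : E7 → Alt 7 7} (hΓ : ContDiffOn ℝ 1 Γ X2.U) {l : ℝ}
    (hl : 1 ≤ l) : ∫ x, chi (extDeriv (fun z => kap l z • Γ z)) x = 0 := by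
  have h1 := kap_C1 hΓ l
  have h2 := h7 (pb (fun z => kap l z • Γ z)) (pb_smooth h1) (by
    apply HasCompactSupport.intro (isCompact_closedBall (0 : Fin 4 → ℂ) l)
    intro x hx
    rw [mem_closedBall_zero_iff] at hx
    apply pb_zero
    show kap l (sig x) • Γ (sig x) = 0
    rw [kap_sig hl (by linarith [not_le.mp hx]), zero_smul])
  rw [← h2]
  congr 1
  funext x
  rw [pb_extDeriv (h1.differentiableOn (by simp)) x, chi_pb]

theorem U2'_subset : U2' ⊆ X2.U := fun _ hz => hz.1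

theorem basic_mono {k : ℕ} {V W : Set E7} {ω : E7 → Alt 7 k} (h : X2.BasicOn W ω) (hVW : V ⊆ W) :
    X2.BasicOn V ω :=
  ⟨fun z hz => h.1 z (hVW hz), fun z hz => h.2 z (hVW hz)⟩

theorem int_const (C : ℝ) : IntegrableOn (fun _ : E7 => C) Shell := by
  have h : volume Shell < ⊤ := isCompact_Shell.measure_lt_top
  exact integrableOn_const h.ne

theorem stk (_h1 : WdgStmt) (h2 : WonStmt) (h3 : LbzStmt) (h4 : BsdStmt) (h5 : DctStmt)
    (h6 : IshStmt) (h7 : Sk0Stmt) : StkStmt := by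
  intro Γ hΓ hB
  have bs := (h4 7 3 4 X2 X2.U isOpen_U (fun w hw c hc => (act_mem_U hc w).mpr hw)).1
  have hd : ContinuousOn (extDeriv Γ) X2.U := extDeriv_cont isOpen_U hΓ
  have hb : X2.BasicOn X2.U (extDeriv Γ) := bs 7 Γ (hΓ.differentiableOn (by simp)) hB
  obtain ⟨C0, hC0⟩ := isCompact_Shell.exists_bound_of_continuousOn (hΓ.continuousOn.mono Shell_subset)
  obtain ⟨C1, hC1⟩ := isCompact_Shell.exists_bound_of_continuousOn (hd.mono Shell_subset)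
  refine ⟨h5.1 (extDeriv Γ) (fun _ => C1) (hd.mono U2'_subset) (basic_mono hb U2'_subset)
    (int_const C1) fun z hz _ _ _ => hC1 z hz.1, ?_⟩
  obtain ⟨C2, hC20, hC2⟩ := kap_bound
  set η : ℕ → E7 → Alt 7 8 := fun m => extDeriv (fun z => kap ((m : ℝ) + 1) z • Γ z) with hη
  have heq : ∀ m : ℕ, ∀ z ∈ X2.U, η m z =
      w1 (fderiv ℝ (kap ((m : ℝ) + 1)) z) (Γ z) + kap ((m : ℝ) + 1) z • extDeriv Γ z := by
    intro m z hz
    have hU := isOpen_U.mem_nhds hz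
    exact h3.1 7 7 (kap ((m : ℝ) + 1)) Γ z
      (((kap_inv _).1.contDiffAt hU).differentiableAt (by simp))
      ((hΓ.contDiffAt hU).differentiableAt (by simp))
  have won := (h2 7 7).2.2.2.2.2.1
  have lim := h5.2 η (extDeriv Γ)
    (fun z => |C1| + 8 * (C2 * |C0|) * (‖z 1‖⁻¹ + ‖z 4‖⁻¹ + ‖z 6‖⁻¹))
    (fun m => (extDeriv_cont isOpen_U (kap_C1 hΓ _)).mono U2'_subset)
    (fun m => basic_mono (bs 7 _ ((kap_C1 hΓ _).differentiableOn (by simp)) (kap_basic hB _))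
      U2'_subset)
    (hd.mono U2'_subset) (basic_mono hb U2'_subset)
    ((int_const |C1|).add ((((h6.2 1).add (h6.2 4)).add (h6.2 6)).const_mul _))
    (by
      intro m z hz z1 z4 z6
      rw [heq m z hz.2.1]
      refine (norm_add_le _ _).trans ?_
      have a1 := won (fderiv ℝ (kap ((m : ℝ) + 1)) z) (Γ z)
      have a2 := hC2 ((m : ℝ) + 1) (by positivity) z hz.1 z1 z4 z6
      have a3 : ‖Γ z‖ ≤ |C0| := (hC0 z hz.1).trans (le_abs_self _)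
      have a4 : ‖extDeriv Γ z‖ ≤ |C1| := (hC1 z hz.1).trans (le_abs_self _)
      have a5 := kap_abs ((m : ℝ) + 1) z
      have a6 : ‖kap ((m : ℝ) + 1) z • extDeriv Γ z‖ ≤ 1 * |C1| := by
        rw [norm_smul, Real.norm_eq_abs]
        exact mul_le_mul a5 a4 (norm_nonneg _) zero_le_one
      have a7 : ‖fderiv ℝ (kap ((m : ℝ) + 1)) z‖ * ‖Γ z‖ ≤
          (C2 * (‖z 1‖⁻¹ + ‖z 4‖⁻¹ + ‖z 6‖⁻¹)) * |C0| :=
        mul_le_mul a2 a3 (norm_nonneg _) (by positivity)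
      have a8 : ((7 : ℕ) : ℝ) + 1 = 8 := by norm_num
      rw [a8] at a1
      nlinarith)
    (by
      intro z hz z1 z4 z6
      apply tendsto_const_nhds.congr'
      filter_upwards [kap_ev hz.2.1 z1 z4 z6] with m hm
      rw [heq m z hz.2.1, hm.1, hm.2, one_smul]
      have e0 : w1 (0 : E7 →L[ℝ] ℝ) (Γ z) = 0 := by
        have := ((h2 7 7).2.2.1 0 0 (Γ z)).1
        rwa [zero_smul, zero_smul] at this
      rw [e0, zero_add])
  have hz : ∀ m : ℕ, ∫ x, chi (η m) x = 0 := fun m =>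
    kap_stokes h7 hΓ (by have : (0 : ℝ) ≤ m := Nat.cast_nonneg m; linarith)
  have lim' : Tendsto (fun m : ℕ => ∫ x, chi (η m) x) atTop (𝓝 0) := by
    simp only [hz]
    exact tendsto_const_nhds
  exact tendsto_nhds_unique lim lim'

end Pool.Agent.SIU.H75
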